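import Pool.Agent.Helper62K9.SQ.St

set_option autoImplicit false

namespace Pool.Agent.Helper86K9.SQ

open Finset Pool.Agent.Helper62K9.DV Pool.Agent.Helper62K9.SQ

theorem bern (b a : ℕ) (hb : 0 < b) : (b - a) * b ^ a ≤ b * (b - 1) ^ a := by
  induction a with
  | zero => simp
  | succ a ih =>
    by_cases h : b ≤ a + 1
    · have : b - (a + 1) = 0 := by omega
      rw [this, zero_mul]
      exact Nat.zero_le _
    · push Not at h
      obtain ⟨e, rfl⟩ := Nat.exists_eq_add_of_lt h
      have h1 : a + 1 + e + 1 - (a + 1) = e + 1 := by omega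
      have h2 : a + 1 + e + 1 - a = e + 2 := by omega
      have h3 : a + 1 + e + 1 - 1 = a + 1 + e := by omega
      rw [h1]
      rw [h2, h3] at ih
      rw [h3]
      calc (e + 1) * (a + 1 + e + 1) ^ (a + 1)
          = ((e + 1) * (a + 1 + e + 1)) * (a + 1 + e + 1) ^ a := by ring
        _ ≤ ((a + 1 + e) * (e + 2)) * (a + 1 + e + 1) ^ a := by
            refine Nat.mul_le_mul_right _ ?_
            nlinarith
        _ = (a + 1 + e) * ((e + 2) * (a + 1 + e + 1) ^ a) := by ring
        _ ≤ (a + 1 + e) * ((a + 1 + e + 1) * (a + 1 + e) ^ a) := Nat.mul_le_mul_left _ ih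
        _ = (a + 1 + e + 1) * (a + 1 + e) ^ (a + 1) := by ring

theorem bin2 (c n : ℕ) : c ^ (n + 1) + (n + 1) * c ^ n ≤ (c + 1) ^ (n + 1) := by
  induction n with
  | zero => simp
  | succ n ih =>
    calc c ^ (n + 1 + 1) + (n + 1 + 1) * c ^ (n + 1)
        ≤ (c + 1) * (c ^ (n + 1) + (n + 1) * c ^ n) := by
          have : (c + 1) * (c ^ (n + 1) + (n + 1) * c ^ n)
            = c ^ (n + 1 + 1) + (n + 1 + 1) * c ^ (n + 1) + (n + 1) * c ^ n := by ring
          rw [this]
          exact Nat.le_add_right _ _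
      _ ≤ (c + 1) * (c + 1) ^ (n + 1) := Nat.mul_le_mul_left _ ih
      _ = (c + 1) ^ (n + 1 + 1) := by ring

theorem half (b : ℕ) (hb : 0 < b) : 2 * (b - 1) ^ b ≤ b ^ b := by
  obtain ⟨c, rfl⟩ : ∃ c, b = c + 1 := ⟨b - 1, by omega⟩
  have h := bin2 c c
  have h1 : c ^ (c + 1) ≤ (c + 1) * c ^ c := by
    rw [pow_succ, mul_comm]
    exact Nat.mul_le_mul_right _ (by omega)
  simp only [Nat.add_sub_cancel]
  omega

/-- The number of functions which avoid a set. -/
theorem card_avoid (m b : ℕ) (hb : 0 < b) (A : Finset (Fin m × Fin b)) :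
    (univ.filter fun σ : Fin m → Fin b => ∀ v ∈ A, v.2 ≠ σ v.1).card * b ^ A.card
      ≤ b ^ m * (b - 1) ^ A.card := by
  classical
  set col : Fin m → Finset (Fin b) := fun i => univ.filter fun j => (i, j) ∈ A with hcol
  have hA : A.card = ∑ i, (col i).card := by
    have h1 : A = univ.biUnion fun i : Fin m => (col i).image fun j => (i, j) := by
      ext ⟨i, j⟩
      simp [hcol]
    conv_lhs => rw [h1]
    rw [card_biUnion]
    · refine sum_congr rfl fun i _ => ?_
      refine card_image_of_injective _ ?_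
      intro x y hxy
      exact (Prod.ext_iff.1 hxy).2
    · intro i _ j _ hij
      rw [Function.onFun, Finset.disjoint_left]
      intro x hx hy
      obtain ⟨y, -, rfl⟩ := mem_image.1 hx
      obtain ⟨z, -, hz⟩ := mem_image.1 hy
      exact hij (Prod.ext_iff.1 hz).1.symm
  have hS : (univ.filter fun σ : Fin m → Fin b => ∀ v ∈ A, v.2 ≠ σ v.1)
      = Fintype.piFinset fun i => (col i)ᶜ := by
    ext σ
    simp only [mem_filter, mem_univ, true_and, Fintype.mem_piFinset, mem_compl, hcol]
    constructor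
    · intro h i hi
      exact h _ hi rfl
    · rintro h ⟨i, j⟩ hv h2
      have h3 : j = σ i := h2
      rw [h3] at hv
      exact h i hv
  rw [hS, Fintype.card_piFinset]
  have hc : ∀ i, ((col i)ᶜ).card = b - (col i).card := fun i => by
    rw [card_compl, Fintype.card_fin]
  simp only [hc]
  rw [hA, ← prod_pow_eq_pow_sum, ← prod_pow_eq_pow_sum, ← prod_mul_distrib]
  have : b ^ m = ∏ _i : Fin m, b := by simp
  rw [this, ← prod_mul_distrib]
  exact prod_le_prod' fun i _ => bern b _ hb

open Classical in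
theorem co : S_CO := by
  intro m b a r t k F P hb hr htr har hP hdis hind
  -- the vertices of `I` touched by the piece `i`
  set A : Fin k → Finset (Fin m × Fin b) → Finset (Fin m × Fin b) := fun i I =>
    I.filter fun v => ∃ u ∈ I, u ≠ v ∧ ∃ τ ∈ F i, s(v, u) ∈ P i τ with hA
  set good := univ.filter fun I : Finset (Fin m × Fin b) =>
    2 * (m * b) * b ≤ ∑ i : Fin k, (A i I).card with hgood
  set W : Finset (Fin m × Fin b) → Fin k → Finset (Fin m → Fin b) := fun I i =>
    univ.filter fun σ : Fin m → Fin b => ∀ v ∈ A i I, v.2 ≠ σ v.1 with hW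
  have hcover : Fintype.piFinset (fun i : Fin k => F i) ⊆
      good.biUnion fun I => Fintype.piFinset (W I) := by
    intro c hc
    rw [Fintype.mem_piFinset] at hc
    obtain ⟨I, hIa, hI⟩ := hind c hc
    have hkey : ∀ i : Fin k, ∀ u ∈ I, ∀ v ∈ I, u ≠ v → (∃ τ ∈ F i, s(u, v) ∈ P i τ) →
        s(u, v) ∈ P i (c i) ∧ u.2 ≠ c i u.1 ∧ v.2 ≠ c i v.1 := by
      intro i u hu v hv huv ⟨τ, hτ, hmem⟩
      obtain ⟨j, hj1, hj2, hj3⟩ := hI u hu v hv huv
      have hij : i = j := by
        by_contra hne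
        exact (Finset.disjoint_left.1 (hdis i j hne τ hτ (c j) (hc j))) hmem hj1
      subst hij
      exact ⟨hj1, hj2, hj3⟩
    rw [mem_biUnion]
    refine ⟨I, ?_, ?_⟩
    · rw [hgood, mem_filter]
      refine ⟨mem_univ _, ?_⟩
      set O : Fin k → Finset ((Fin m × Fin b) × (Fin m × Fin b)) := fun i =>
        I.offDiag.filter fun p => s(p.1, p.2) ∈ P i (c i) with hO
      have h1 : I.offDiag ⊆ univ.biUnion O := by
        intro p hp
        obtain ⟨hp1, hp2, hp3⟩ := mem_offDiag.1 hp
        obtain ⟨i, hi, -, -⟩ := hI p.1 hp1 p.2 hp2 hp3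
        rw [mem_biUnion]
        exact ⟨i, mem_univ _, mem_filter.2 ⟨hp, hi⟩⟩
      have h2 : ∀ i, (O i).card ≤ r * (A i I).card := by
        intro i
        have h3 : (O i).card ≤ 2 * t := by
          refine (card_pairs_le (O i) (P i (c i)) fun p hp => (mem_filter.1 hp).2).trans ?_
          exact Nat.mul_le_mul_left 2 (hP i (c i) (hc i))
        have h4 : (O i).card ≤ (A i I).card ^ 2 := by
          rw [sq, ← card_product]
          refine card_le_card ?_
          intro p hp
          obtain ⟨hp1, hp2⟩ := mem_filter.1 hp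
          obtain ⟨hp1, hp3, hp4⟩ := mem_offDiag.1 hp1
          rw [mem_product]
          refine ⟨mem_filter.2 ⟨hp1, p.2, hp3, hp4.symm, c i, hc i, hp2⟩,
            mem_filter.2 ⟨hp3, p.1, hp1, hp4, c i, hc i, ?_⟩⟩
          rw [Sym2.eq_swap]
          exact hp2
        have h5 : (O i).card ^ 2 ≤ (r * (A i I).card) ^ 2 := by
          calc (O i).card ^ 2 = (O i).card * (O i).card := sq _
            _ ≤ r ^ 2 * (A i I).card ^ 2 := Nat.mul_le_mul (h3.trans htr) h4
            _ = (r * (A i I).card) ^ 2 := by ring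
        exact (Nat.pow_le_pow_iff_left (by norm_num)).1 h5
      have h6 : I.card * (I.card - 1) ≤ r * ∑ i : Fin k, (A i I).card := by
        calc I.card * (I.card - 1) = I.offDiag.card := by
              rw [offDiag_card]
              exact Nat.mul_sub_one _ _
          _ ≤ (univ.biUnion O).card := card_le_card h1
          _ ≤ ∑ i, (O i).card := card_biUnion_le
          _ ≤ ∑ i : Fin k, r * (A i I).card := sum_le_sum fun i _ => h2 i
          _ = r * ∑ i : Fin k, (A i I).card := by rw [mul_sum]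
      have h7 : a * (a - 1) ≤ I.card * (I.card - 1) := Nat.mul_le_mul hIa (by omega)
      have h8 : r * (2 * (m * b) * b) ≤ r * ∑ i : Fin k, (A i I).card := by
        calc r * (2 * (m * b) * b) = 2 * (m * b) * b * r := by ring
          _ ≤ _ := har.trans (h7.trans h6)
      exact Nat.le_of_mul_le_mul_left h8 hr
    · rw [Fintype.mem_piFinset]
      intro i
      rw [hW, mem_filter]
      refine ⟨mem_univ _, ?_⟩
      intro v hv
      obtain ⟨hv1, u, hu, huv, τ, hτ, hmem⟩ := mem_filter.1 hv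
      exact (hkey i v hv1 u hu huv.symm ⟨τ, hτ, hmem⟩).2.1
  have hpow : ∀ s, 2 * (m * b) * b ≤ s → 2 ^ (2 * (m * b)) * (b - 1) ^ s ≤ b ^ s := by
    intro s hs
    obtain ⟨e, rfl⟩ := Nat.exists_eq_add_of_le hs
    calc 2 ^ (2 * (m * b)) * (b - 1) ^ (2 * (m * b) * b + e)
        = (2 * (b - 1) ^ b) ^ (2 * (m * b)) * (b - 1) ^ e := by
          rw [pow_add, mul_pow, ← pow_mul, mul_comm b (2 * (m * b))]
          ring
      _ ≤ (b ^ b) ^ (2 * (m * b)) * b ^ e :=
          Nat.mul_le_mul (Nat.pow_le_pow_left (half b hb) _) (Nat.pow_le_pow_left (by omega) _)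
      _ = b ^ (2 * (m * b) * b + e) := by
          rw [pow_add, ← pow_mul, mul_comm b (2 * (m * b))]
  have hprod : ∀ I ∈ good, (∏ i, (W I i).card) * 2 ^ (2 * (m * b)) ≤ (b ^ m) ^ k := by
    intro I hI
    have hI' : 2 * (m * b) * b ≤ ∑ i : Fin k, (A i I).card := (mem_filter.1 hI).2
    set s := ∑ i : Fin k, (A i I).card with hs
    have h1 : (∏ i, (W I i).card) * b ^ s ≤ (b ^ m) ^ k * (b - 1) ^ s := by
      calc (∏ i, (W I i).card) * b ^ s
          = ∏ i : Fin k, ((W I i).card * b ^ (A i I).card) := by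
            rw [prod_mul_distrib, prod_pow_eq_pow_sum]
        _ ≤ ∏ i : Fin k, (b ^ m * (b - 1) ^ (A i I).card) :=
            prod_le_prod' fun i _ => card_avoid m b hb (A i I)
        _ = (b ^ m) ^ k * (b - 1) ^ s := by
            rw [prod_mul_distrib, prod_const, card_univ, Fintype.card_fin, prod_pow_eq_pow_sum]
    have h2 : b ^ s * ((∏ i, (W I i).card) * 2 ^ (2 * (m * b))) ≤ b ^ s * (b ^ m) ^ k := by
      calc b ^ s * ((∏ i, (W I i).card) * 2 ^ (2 * (m * b)))
          = ((∏ i, (W I i).card) * b ^ s) * 2 ^ (2 * (m * b)) := by ring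
        _ ≤ ((b ^ m) ^ k * (b - 1) ^ s) * 2 ^ (2 * (m * b)) := Nat.mul_le_mul_right _ h1
        _ = (b ^ m) ^ k * (2 ^ (2 * (m * b)) * (b - 1) ^ s) := by ring
        _ ≤ (b ^ m) ^ k * b ^ s := Nat.mul_le_mul_left _ (hpow s hI')
        _ = b ^ s * (b ^ m) ^ k := by ring
    exact Nat.le_of_mul_le_mul_left h2 (by positivity)
  have hsum : (∏ i, (F i).card) * 2 ^ (2 * (m * b)) ≤ 2 ^ (m * b) * (b ^ m) ^ k := by
    calc (∏ i, (F i).card) * 2 ^ (2 * (m * b))
        = (Fintype.piFinset (fun i : Fin k => F i)).card * 2 ^ (2 * (m * b)) := by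
          rw [Fintype.card_piFinset]
      _ ≤ (∑ I ∈ good, (Fintype.piFinset (W I)).card) * 2 ^ (2 * (m * b)) :=
          Nat.mul_le_mul_right _ ((card_le_card hcover).trans card_biUnion_le)
      _ = ∑ I ∈ good, (∏ i, (W I i).card) * 2 ^ (2 * (m * b)) := by
          rw [sum_mul]
          refine sum_congr rfl fun I _ => ?_
          rw [Fintype.card_piFinset]
      _ ≤ ∑ _I ∈ good, (b ^ m) ^ k := sum_le_sum hprod
      _ = good.card * (b ^ m) ^ k := by rw [sum_const, smul_eq_mul]
      _ ≤ 2 ^ (m * b) * (b ^ m) ^ k := by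
          refine Nat.mul_le_mul_right _ ?_
          refine (card_le_univ good).trans ?_
          rw [Fintype.card_finset, Fintype.card_prod, Fintype.card_fin, Fintype.card_fin]
  have h3 : 2 ^ (m * b) * ((∏ i, (F i).card) * 2 ^ (m * b)) ≤ 2 ^ (m * b) * (b ^ m) ^ k := by
    calc 2 ^ (m * b) * ((∏ i, (F i).card) * 2 ^ (m * b))
        = (∏ i, (F i).card) * 2 ^ (2 * (m * b)) := by ring
      _ ≤ _ := hsum
  exact Nat.le_of_mul_le_mul_left h3 (by positivity)

end Pool.Agent.Helper86K9.SQ
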