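import Pool.Agent.Helper62K9.SQ.St

set_option autoImplicit false

namespace Pool.Agent.Helper86K9.SQ

open Finset Pool.Agent.Helper62K9.DV Pool.Agent.Helper62K9.SQ

/-- the mixed graph -/
def mix {n m b k : ℕ} (f : Fin m × Fin b ↪ Fin n)
    (P : Fin k → (Fin m → Fin b) → Finset (Sym2 (Fin n)))
    (d : Fin k → (Fin m → Fin b)) : SimpleGraph (Fin n) where
  Adj u v := u ≠ v ∧ ¬ ∃ i, s(u, v) ∈ P i (d i) ∧ u ∉ pick f (d i) ∧ v ∉ pick f (d i)
  symm := ⟨by
    rintro u v ⟨h1, h2⟩
    refine ⟨h1.symm, ?_⟩
    rintro ⟨i, h3, h4, h5⟩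
    exact h2 ⟨i, by rw [Sym2.eq_swap]; exact h3, h5, h4⟩⟩
  loopless := ⟨fun v h => h.1 rfl⟩

open Classical in
theorem ma (hSK : S_SK) (hCO : S_CO) : S_MA := by
  intro n m c r t f ι _ D hD hl 𝓕 h𝓕 hacc hsound hc hr htr hcm
  obtain ⟨k, F, P, hk, hPc, hPd, hPm, hcard⟩ := hSK (Sym2 (Fin n)) ι (Fin m → Fin (2 * c)) t
    (fun σ => code (touch (pick f σ))) D hD hl 𝓕 h𝓕 hacc
  refine ⟨k, ?_, ?_⟩
  · have h1 : Fintype.card (Sym2 (Fin n)) = n * (n + 1) / 2 := by
      rw [Sym2.card, Fintype.card_fin, Nat.choose_two_right, Nat.add_sub_cancel, mul_comm]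
    rw [← h1]
    exact hk
  have hinj : Function.Injective (Sym2.map f) := Sym2.map.injective f.injective
  set P' : Fin k → (Fin m → Fin (2 * c)) → Finset (Sym2 (Fin m × Fin (2 * c))) := fun i σ =>
    univ.filter fun e => Sym2.map f e ∈ P i σ with hP'
  have hco := hCO m (2 * c) (c * m) r (2 * t) k F P' (by omega) hr (by omega) (by
      obtain ⟨e, he⟩ := Nat.exists_eq_add_of_le hcm
      have h1 : c * m - 1 = 8 * c * r + e := by omega
      rw [h1]
      calc 2 * (m * (2 * c)) * (2 * c) * r = c * m * (8 * c * r) := by ring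
        _ ≤ c * m * (8 * c * r + e) := Nat.mul_le_mul_left _ (Nat.le_add_right _ _)) (by
      intro i σ hσ
      refine le_trans ?_ (hPc i σ hσ)
      refine card_le_card_of_injOn (Sym2.map f) ?_ (hinj.injOn)
      intro e he
      exact (mem_filter.1 he).2) (by
      intro i j hij σ hσ τ hτ
      rw [Finset.disjoint_left]
      intro e he1 he2
      exact Finset.disjoint_left.1 (hPd i j hij σ hσ τ hτ) (mem_filter.1 he1).2
        (mem_filter.1 he2).2) (by
      intro d hd
      have hacc' : D.Accepts (code (mix f P d)) := by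
        refine hPm _ d hd ?_
        intro i e he
        induction e using Sym2.ind with
        | _ u v =>
          simp only [code, SimpleGraph.mem_edgeSet, decide_eq_decide]
          constructor
          · rintro ⟨h1, h2⟩
            refine ⟨h1, ?_⟩
            by_contra hcon
            push Not at hcon
            exact h2 ⟨i, he, hcon.1, hcon.2⟩
          · rintro ⟨h1, h2⟩
            refine ⟨h1, ?_⟩
            rintro ⟨j, h3, h4, h5⟩
            have hij : i = j := by
              by_contra hne
              exact (Finset.disjoint_left.1 (hPd i j hne (d i) (hd i) (d j) (hd j))) he h3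
            subst hij
            rcases h2 with h2 | h2
            · exact h4 h2
            · exact h5 h2
      have hvc := hsound _ hacc'
      obtain ⟨S, hS, hSc⟩ := exists_cover (mix f P d)
      refine ⟨univ.filter fun p => f p ∉ S, ?_, ?_⟩
      · have h1 : (univ.filter fun p : Fin m × Fin (2 * c) => f p ∈ S).card ≤ S.card :=
          card_le_card_of_injOn f (fun p hp => (mem_filter.1 hp).2) f.injective.injOn
        have h2 := card_filter_add_card_filter_not (s := (univ : Finset (Fin m × Fin (2 * c))))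
          (fun p => f p ∈ S)
        rw [card_univ, Fintype.card_prod, Fintype.card_fin, Fintype.card_fin] at h2
        have h3 : m * (2 * c) = c * m + c * m := by ring
        omega
      · intro u hu v hv huv
        have hu' := (mem_filter.1 hu).2
        have hv' := (mem_filter.1 hv).2
        have hnadj : ¬ (mix f P d).Adj (f u) (f v) := by
          intro h
          rcases hSc h with h' | h'
          · exact hu' h'
          · exact hv' h'
        have : ∃ i, s(f u, f v) ∈ P i (d i) ∧ f u ∉ pick f (d i) ∧ f v ∉ pick f (d i) := by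
          by_contra hcon
          exact hnadj ⟨fun h => huv (f.injective h), hcon⟩
        obtain ⟨i, h3, h4, h5⟩ := this
        refine ⟨i, mem_filter.2 ⟨mem_univ _, h3⟩, ?_, ?_⟩
        · intro h
          refine h4 (mem_image.2 ⟨u.1, mem_univ _, ?_⟩)
          rw [← h]
        · intro h
          refine h5 (mem_image.2 ⟨v.1, mem_univ _, ?_⟩)
          rw [← h])
  calc 𝓕.card ^ k * 2 ^ (2 * c * m)
      ≤ ((4 * Fintype.card ι) ^ (2 * k) * ∏ i, (F i).card) * 2 ^ (2 * c * m) :=
        Nat.mul_le_mul_right _ hcard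
    _ = (4 * Fintype.card ι) ^ (2 * k) * ((∏ i, (F i).card) * 2 ^ (m * (2 * c))) := by
        rw [mul_comm m (2 * c), mul_assoc]
    _ ≤ _ := Nat.mul_le_mul_left _ hco

end Pool.Agent.Helper86K9.SQ
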